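import Mathlib

/-!
# Critical points of the distance to rank-one `2 × 2 × 2` tensors with total sum `1`
-/

namespace Pool.Agent.H9.RealCrit

/-- `2 × 2 × 2` tensors with entries in `K`. -/
abbrev Tensor (K : Type) : Type := Fin 2 → Fin 2 → Fin 2 → K

variable {K : Type} [CommRing K]

/-- The rank-one tensor `a ⊗ b ⊗ c`. -/
def rk (a b c : Fin 2 → K) : Tensor K := fun i j l => a i * b j * c l

/-- The sum of the entries. -/
def tot (x : Tensor K) : K := ∑ i, ∑ j, ∑ l, x i j l

/-- The Frobenius bilinear form. -/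
def inn (x y : Tensor K) : K := ∑ i, ∑ j, ∑ l, x i j l * y i j l

/-- `x` is a critical point of `d_T` on `X^H = {rank-one tensors with entries summing to 1}`:
`x = a ⊗ b ⊗ c` has total sum `1`, and `x - T` is orthogonal to every vector
`a' ⊗ b ⊗ c + a ⊗ b' ⊗ c + a ⊗ b ⊗ c'` (tangent to the Segre cone at `x`) whose entries sum
to `0` (tangent to `H`). -/
def IsCritical (T x : Tensor K) : Prop :=
  ∃ a b c : Fin 2 → K, x = rk a b c ∧ tot x = 1 ∧ ∀ a' b' c' : Fin 2 → K,
    tot (rk a' b c + rk a b' c + rk a b c') = 0 →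
      inn (x - T) (rk a' b c + rk a b' c + rk a b c') = 0

/-- A real tensor regarded as a complex tensor. -/
def toC (x : Tensor ℝ) : Tensor ℂ := fun i j l => (x i j l : ℂ)

/-- The set of (complex) critical points of `d_T` on `X^H`. -/
def critSet (T : Tensor ℂ) : Set (Tensor ℂ) := {x | IsCritical T x}

/-- The real tensor `T` has at least two distinct real critical points. -/
def TwoReal (T : Tensor ℝ) : Prop :=
  ∃ x x' : Tensor ℝ, x ≠ x' ∧ toC x ∈ critSet (toC T) ∧ toC x' ∈ critSet (toC T)

/-- `T` is a probability tensor with positive entries. -/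
def IsPosProb (T : Tensor ℝ) : Prop := tot T = 1 ∧ ∀ i j l, 0 < T i j l

/-- The value at `T` of a polynomial in the eight entries. -/
noncomputable def evalT (P : MvPolynomial (Fin 2 × Fin 2 × Fin 2) ℂ) (T : Tensor ℂ) : ℂ :=
  MvPolynomial.eval (fun s => T s.1 s.2.1 s.2.2) P

/-- A property of complex tensors with total sum `1` that holds for generic ones, i.e. outside the
zero set of a polynomial that does not vanish identically on `H`. -/
def Generic (Q : Tensor ℂ → Prop) : Prop :=
  ∃ P : MvPolynomial (Fin 2 × Fin 2 × Fin 2) ℂ, (∃ T, tot T = 1 ∧ evalT P T ≠ 0) ∧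
    ∀ T, tot T = 1 → evalT P T ≠ 0 → Q T

end Pool.Agent.H9.RealCrit
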