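import Pool.Agent.H9.RealCrit.Tens

namespace Pool.Agent.H9.RealCrit

open Polynomial

/-- Restriction of a polynomial to a line. -/
theorem line_poly (P : MvPolynomial (Fin 2 × Fin 2 × Fin 2) ℂ) (T0 D : Tensor ℂ) :
    ∃ q : ℂ[X], ∀ z : ℂ, q.eval z = evalT P (fun i j l => T0 i j l + z * D i j l) := by
  refine ⟨MvPolynomial.aeval
    (fun s => C (T0 s.1 s.2.1 s.2.2) + X * C (D s.1 s.2.1 s.2.2)) P, ?_⟩
  intro z
  unfold evalT
  rw [← Polynomial.coe_evalRingHom, ← AlgHom.coe_toRingHom, ← RingHom.comp_apply]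
  congr 1
  apply MvPolynomial.ringHom_ext
  · intro c
    simp
  · intro s
    simp only [RingHom.comp_apply, AlgHom.coe_toRingHom, MvPolynomial.aeval_X,
      Polynomial.coe_evalRingHom, Polynomial.eval_add, Polynomial.eval_mul, Polynomial.eval_C,
      Polynomial.eval_X, MvPolynomial.eval_X]

/-- A polynomial vanishing at all small positive real points of a line vanishes on the line. -/
theorem line_zero (P : MvPolynomial (Fin 2 × Fin 2 × Fin 2) ℂ) (T0 D : Tensor ℂ) (ρ : ℝ)
    (hρ : 0 < ρ) (h : ∀ s : ℝ, 0 < s → s < ρ → evalT P (fun i j l => T0 i j l + s * D i j l) = 0)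
    (z : ℂ) : evalT P (fun i j l => T0 i j l + z * D i j l) = 0 := by
  obtain ⟨q, hq⟩ := line_poly P T0 D
  have hq0 : q = 0 := by
    apply Polynomial.eq_zero_of_infinite_isRoot
    apply Set.Infinite.mono (s := (fun s : ℝ => (s : ℂ)) '' Set.Ioo 0 ρ)
    · rintro _ ⟨s, hs, rfl⟩
      change q.IsRoot (s : ℂ)
      rw [Polynomial.IsRoot.def, hq]
      exact h s hs.1 hs.2
    · exact (Set.Ioo_infinite hρ).image (Complex.ofReal_injective.injOn)
  rw [← hq, hq0, Polynomial.eval_zero]

theorem dense (Q : Tensor ℂ → Prop) (hQ : Generic Q) :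
    ∃ T : Tensor ℝ, tot T = 1 ∧ (∀ i j l, |T i j l - T1 i j l| < 1 / 1000) ∧ Q (toC T) := by
  obtain ⟨P, ⟨T', hT', hP⟩, hall⟩ := hQ
  by_contra hcon
  push Not at hcon
  -- all close real tensors are zeros of `P`
  have hz : ∀ T : Tensor ℝ, tot T = 1 → (∀ i j l, |T i j l - T1 i j l| < 1 / 1000) →
      evalT P (toC T) = 0 := by
    intro T hT hclose
    by_contra hne
    apply hcon T hT hclose
    apply hall _ _ hne
    have : tot (toC T) = ((tot T : ℝ) : ℂ) := by
      simp [tot, toC, Fin.sum_univ_two]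
    rw [this, hT, Complex.ofReal_one]
  let A' : Tensor ℝ := fun i j l => (T' i j l).re
  let B' : Tensor ℝ := fun i j l => (T' i j l).im
  have hA : tot A' = 1 := by
    have := congrArg Complex.re hT'
    simpa [tot, A', Fin.sum_univ_two] using this
  have hB : tot B' = 0 := by
    have := congrArg Complex.im hT'
    simpa [tot, B', Fin.sum_univ_two] using this
  obtain ⟨M, hM1, hM⟩ : ∃ M : ℝ, 1 ≤ M ∧ ∀ i j l, |A' i j l - T1 i j l| + |B' i j l| ≤ M := by
    refine ⟨1 + ∑ i, ∑ j, ∑ l, (|A' i j l - T1 i j l| + |B' i j l|), ?_, ?_⟩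
    · have : 0 ≤ ∑ i : Fin 2, ∑ j : Fin 2, ∑ l : Fin 2, (|A' i j l - T1 i j l| + |B' i j l|) := by
        positivity
      linarith
    · intro i j l
      have h1 : |A' i j l - T1 i j l| + |B' i j l|
          ≤ ∑ l, (|A' i j l - T1 i j l| + |B' i j l|) :=
        Finset.single_le_sum (f := fun l => |A' i j l - T1 i j l| + |B' i j l|)
          (fun _ _ => by positivity) (Finset.mem_univ l)
      have h2 : ∑ l, (|A' i j l - T1 i j l| + |B' i j l|)
          ≤ ∑ j, ∑ l, (|A' i j l - T1 i j l| + |B' i j l|) :=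
        Finset.single_le_sum (f := fun j => ∑ l, (|A' i j l - T1 i j l| + |B' i j l|))
          (fun _ _ => by positivity) (Finset.mem_univ j)
      have h3 : ∑ j, ∑ l, (|A' i j l - T1 i j l| + |B' i j l|)
          ≤ ∑ i, ∑ j, ∑ l, (|A' i j l - T1 i j l| + |B' i j l|) :=
        Finset.single_le_sum (f := fun i => ∑ j, ∑ l, (|A' i j l - T1 i j l| + |B' i j l|))
          (fun _ _ => by positivity) (Finset.mem_univ i)
      linarith
  set ρ : ℝ := 1 / (2000 * M) with hρ
  have hρ0 : 0 < ρ := by positivity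
  have hρM : ρ * M = 1 / 2000 := by
    rw [hρ]
    field_simp
  -- first step: fixed small real `t`
  have hstep1 : ∀ t : ℝ, 0 < t → t < ρ →
      evalT P (fun i j l => (A' i j l : ℂ) + t * (B' i j l : ℂ)) = 0 := by
    intro t ht0 ht
    have h1 := line_zero P (fun i j l => (T1 i j l : ℂ) + t * (B' i j l : ℂ))
      (fun i j l => (A' i j l : ℂ) - (T1 i j l : ℂ)) ρ hρ0 (by
        intro s hs0 hs
        have h2 := hz (fun i j l => T1 i j l + t * B' i j l + s * (A' i j l - T1 i j l)) (by
            have hT1 := T1_prob.1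
            simp only [tot, Fin.sum_univ_two] at hA hB hT1 ⊢
            linear_combination hT1 + t * hB + s * (hA - hT1)) (by
            intro i j l
            have hb := hM i j l
            have e : T1 i j l + t * B' i j l + s * (A' i j l - T1 i j l) - T1 i j l
                = t * B' i j l + s * (A' i j l - T1 i j l) := by ring
            rw [e]
            have k1 : |t * B' i j l| ≤ ρ * |B' i j l| := by
              rw [abs_mul, abs_of_pos ht0]
              exact mul_le_mul_of_nonneg_right ht.le (abs_nonneg _)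
            have k2 : |s * (A' i j l - T1 i j l)| ≤ ρ * |A' i j l - T1 i j l| := by
              rw [abs_mul, abs_of_pos hs0]
              exact mul_le_mul_of_nonneg_right hs.le (abs_nonneg _)
            have k3 := abs_add_le (t * B' i j l) (s * (A' i j l - T1 i j l))
            have k4 : ρ * (|A' i j l - T1 i j l| + |B' i j l|) ≤ ρ * M :=
              mul_le_mul_of_nonneg_left hb hρ0.le
            rw [hρM] at k4
            linarith)
        rw [← h2]
        congr 1
        funext i j l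
        simp [toC]) 1
    rw [← h1]
    congr 1
    funext i j l
    ring
  have h3 := line_zero P (fun i j l => (A' i j l : ℂ)) (fun i j l => (B' i j l : ℂ)) ρ hρ0 hstep1
    Complex.I
  apply hP
  rw [← h3]
  congr 1
  funext i j l
  rw [mul_comm]
  exact (Complex.re_add_im (T' i j l)).symm

/-- All parts together. -/
theorem main :
    (∃ (T₁ : Tensor ℝ) (η : ℝ), IsPosProb T₁ ∧ 0 < η ∧ ∀ T : Tensor ℝ, tot T = 1 →
      (∀ i j l, |T i j l - T₁ i j l| < η) → IsPosProb T ∧ TwoReal T) ∧
    (∀ Q : Tensor ℂ → Prop, Generic Q → ∃ T : Tensor ℝ, IsPosProb T ∧ Q (toC T) ∧ TwoReal T) ∧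
    (∀ N : ℕ, Generic (fun T => (critSet T).encard = N) →
      ∃ T : Tensor ℝ, IsPosProb T ∧ (critSet (toC T)).encard = N ∧ TwoReal T) := by
  have h2 : ∀ Q : Tensor ℂ → Prop, Generic Q →
      ∃ T : Tensor ℝ, IsPosProb T ∧ Q (toC T) ∧ TwoReal T := by
    intro Q hQ
    obtain ⟨T, hT, hclose, hQT⟩ := dense Q hQ
    exact ⟨T, ⟨hT, pos_of_close T hclose⟩, hQT, twoReal_of_close T hclose⟩
  refine ⟨⟨T1, 1 / 1000, T1_prob, by norm_num, ?_⟩, h2, fun N hN => h2 _ hN⟩
  intro T hT hclose
  exact ⟨⟨hT, pos_of_close T hclose⟩, twoReal_of_close T hclose⟩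

end Pool.Agent.H9.RealCrit
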