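import Pool.Agent.H9.RealCrit.Defs

namespace Pool.Agent.H9.RealCrit

/-- The objective function in the coordinates `u, v, w`. -/
def h (t1 t2 t3 t12 t13 t23 t123 u v w : ℝ) : ℝ :=
  (u - t1) ^ 2 + (v - t2) ^ 2 + (w - t3) ^ 2 + (u * v - t12) ^ 2 + (u * w - t13) ^ 2
    + (v * w - t23) ^ 2 + (u * v * w - t123) ^ 2

theorem face_bound (t2 t3 t23 v w : ℝ) (h2 : |t2| ≤ 1 / 100) (h3 : |t3| ≤ 1 / 100)
    (h23 : |t23 - 9 / 10| ≤ 1 / 100) (hv : 0 ≤ v) (hw : 0 ≤ w) :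
    (78 : ℝ) / 100 ≤ (v - t2) ^ 2 + (w - t3) ^ 2 + (v * w - t23) ^ 2 := by
  rw [abs_le] at h2 h3 h23
  have hvw : 0 ≤ v * w := mul_nonneg hv hw
  nlinarith [sq_nonneg (v - w), sq_nonneg (v * w), sq_nonneg (v - 1 / 9), sq_nonneg (w - 1 / 9),
    mul_nonneg hv (by linarith [h2.2] : (0 : ℝ) ≤ 1 / 100 - t2),
    mul_nonneg hw (by linarith [h3.2] : (0 : ℝ) ≤ 1 / 100 - t3),
    mul_nonneg hvw (by linarith [h23.2] : (0 : ℝ) ≤ 91 / 100 - t23), sq_nonneg t2, sq_nonneg t3,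
    sq_nonneg (v + w)]


theorem quad_min (A B C u0 : ℝ) (h0 : 0 < u0) (h2 : u0 < 2)
    (hmin : ∀ s, 0 ≤ s → s ≤ 2 → A * u0 ^ 2 - 2 * B * u0 + C ≤ A * s ^ 2 - 2 * B * s + C) :
    A * u0 - B = 0 := by
  have h1 : IsLocalMin (fun s : ℝ => A * s ^ 2 - 2 * B * s + C) u0 := by
    filter_upwards [Ioo_mem_nhds h0 h2] with s hs
    exact hmin s hs.1.le hs.2.le
  have h3 : HasDerivAt (fun s : ℝ => A * s ^ 2 - 2 * B * s + C)
      (A * (2 * u0) - 2 * B) u0 := by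
    have e1 := (hasDerivAt_pow 2 u0).const_mul A
    have e2 := (hasDerivAt_id u0).const_mul (2 * B)
    have e3 := (e1.sub e2).add_const C
    simpa using e3
  have := h1.hasDerivAt_eq_zero h3
  linarith

/-- Small perturbations of the special tensor, in the coordinates. -/
structure Near (t1 t2 t3 t12 t13 t23 t123 : ℝ) : Prop where
  h1 : |t1| ≤ 1 / 100
  h2 : |t2| ≤ 1 / 100
  h3 : |t3| ≤ 1 / 100
  h12 : |t12 - 9 / 10| ≤ 1 / 100
  h13 : |t13 - 9 / 10| ≤ 1 / 100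
  h23 : |t23 - 9 / 10| ≤ 1 / 100
  h123 : |t123| ≤ 1 / 100

theorem exists_crit {t1 t2 t3 t12 t13 t23 t123 : ℝ} (H : Near t1 t2 t3 t12 t13 t23 t123) :
    ∃ u v w : ℝ, 0 < u ∧ 0 < v ∧ 0 < w ∧
      (u - t1) + (u * v - t12) * v + (u * w - t13) * w + (u * v * w - t123) * (v * w) = 0 ∧
      (v - t2) + (u * v - t12) * u + (v * w - t23) * w + (u * v * w - t123) * (u * w) = 0 ∧
      (w - t3) + (u * w - t13) * u + (v * w - t23) * v + (u * v * w - t123) * (u * v) = 0 := by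
  obtain ⟨h1, h2, h3, h12, h13, h23, h123⟩ := H
  let f : ℝ × ℝ × ℝ → ℝ := fun q => h t1 t2 t3 t12 t13 t23 t123 q.1 q.2.1 q.2.2
  have hf : Continuous f := by
    unfold f h
    fun_prop
  have hK : IsCompact (Set.Icc ((0 : ℝ), (0 : ℝ), (0 : ℝ)) (2, 2, 2)) := isCompact_Icc
  have hne : (Set.Icc ((0 : ℝ), (0 : ℝ), (0 : ℝ)) (2, 2, 2)).Nonempty := by
    refine ⟨(6 / 10, 6 / 10, 6 / 10), ?_, ?_⟩ <;>
    · simp only [Prod.mk_le_mk]
      norm_num
  obtain ⟨⟨u, v, w⟩, hmem, hmin⟩ := hK.exists_isMinOn hne hf.continuousOn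
  obtain ⟨hlo, hhi⟩ := hmem
  simp only [Prod.mk_le_mk] at hlo hhi
  obtain ⟨hu0, hv0, hw0⟩ := hlo
  obtain ⟨hu2, hv2, hw2⟩ := hhi
  have hmin' : ∀ a b c : ℝ, 0 ≤ a → 0 ≤ b → 0 ≤ c → a ≤ 2 → b ≤ 2 → c ≤ 2 →
      h t1 t2 t3 t12 t13 t23 t123 u v w ≤ h t1 t2 t3 t12 t13 t23 t123 a b c := by
    intro a b c ha hb hc ha2 hb2 hc2
    exact hmin (a := (a, b, c)) ⟨by simp only [Prod.mk_le_mk]; exact ⟨ha, hb, hc⟩,
      by simp only [Prod.mk_le_mk]; exact ⟨ha2, hb2, hc2⟩⟩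
  have hval : h t1 t2 t3 t12 t13 t23 t123 u v w ≤ 208 / 100 := by
    refine (hmin' (6 / 10) (6 / 10) (6 / 10) (by norm_num) (by norm_num) (by norm_num) (by norm_num)
      (by norm_num) (by norm_num)).trans ?_
    unfold h
    rw [abs_le] at h1 h2 h3 h12 h13 h23 h123
    nlinarith
  have h12' := abs_le.1 h12
  have h13' := abs_le.1 h13
  have h23' := abs_le.1 h23
  have h1' := abs_le.1 h1
  have h2' := abs_le.1 h2
  have h3' := abs_le.1 h3
  have k12 : (79 : ℝ) / 100 ≤ t12 ^ 2 := by nlinarith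
  have k13 : (79 : ℝ) / 100 ≤ t13 ^ 2 := by nlinarith
  have k23 : (79 : ℝ) / 100 ≤ t23 ^ 2 := by nlinarith
  have l1 : (39 : ℝ) / 10 ≤ (2 - t1) ^ 2 := by nlinarith
  have l2 : (39 : ℝ) / 10 ≤ (2 - t2) ^ 2 := by nlinarith
  have l3 : (39 : ℝ) / 10 ≤ (2 - t3) ^ 2 := by nlinarith
  have hu : 0 < u := by
    rcases hu0.lt_or_eq with hlt | heq
    · exact hlt
    · exfalso
      have hb := face_bound t2 t3 t23 v w h2 h3 h23 hv0 hw0
      rw [← heq] at hval
      unfold h at hval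
      have e1 : (0 * v - t12) ^ 2 = t12 ^ 2 := by ring
      have e2 : (0 * w - t13) ^ 2 = t13 ^ 2 := by ring
      rw [e1, e2] at hval
      linarith [sq_nonneg (0 - t1), sq_nonneg (0 * v * w - t123)]
  have hv : 0 < v := by
    rcases hv0.lt_or_eq with hlt | heq
    · exact hlt
    · exfalso
      have hb := face_bound t1 t3 t13 u w h1 h3 h13 hu0 hw0
      rw [← heq] at hval
      unfold h at hval
      have e1 : (u * 0 - t12) ^ 2 = t12 ^ 2 := by ring
      have e2 : (0 * w - t23) ^ 2 = t23 ^ 2 := by ring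
      rw [e1, e2] at hval
      linarith [sq_nonneg (0 - t2), sq_nonneg (u * 0 * w - t123)]
  have hw : 0 < w := by
    rcases hw0.lt_or_eq with hlt | heq
    · exact hlt
    · exfalso
      have hb := face_bound t1 t2 t12 u v h1 h2 h12 hu0 hv0
      rw [← heq] at hval
      unfold h at hval
      have e1 : (u * 0 - t13) ^ 2 = t13 ^ 2 := by ring
      have e2 : (v * 0 - t23) ^ 2 = t23 ^ 2 := by ring
      rw [e1, e2] at hval
      linarith [sq_nonneg (0 - t3), sq_nonneg (u * v * 0 - t123)]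
  have hu' : u < 2 := by
    rcases hu2.lt_or_eq with hlt | heq
    · exact hlt
    · exfalso
      unfold h at hval
      rw [heq] at hval
      linarith [sq_nonneg (v - t2), sq_nonneg (w - t3), sq_nonneg (2 * v - t12),
        sq_nonneg (2 * w - t13), sq_nonneg (v * w - t23), sq_nonneg (2 * v * w - t123)]
  have hv' : v < 2 := by
    rcases hv2.lt_or_eq with hlt | heq
    · exact hlt
    · exfalso
      unfold h at hval
      rw [heq] at hval
      linarith [sq_nonneg (u - t1), sq_nonneg (w - t3), sq_nonneg (u * 2 - t12),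
        sq_nonneg (u * w - t13), sq_nonneg (2 * w - t23), sq_nonneg (u * 2 * w - t123)]
  have hw' : w < 2 := by
    rcases hw2.lt_or_eq with hlt | heq
    · exact hlt
    · exfalso
      unfold h at hval
      rw [heq] at hval
      linarith [sq_nonneg (v - t2), sq_nonneg (u - t1), sq_nonneg (u * v - t12),
        sq_nonneg (u * 2 - t13), sq_nonneg (v * 2 - t23), sq_nonneg (u * v * 2 - t123)]
  refine ⟨u, v, w, hu, hv, hw, ?_, ?_, ?_⟩
  · have := quad_min (1 + v ^ 2 + w ^ 2 + v ^ 2 * w ^ 2) (t1 + t12 * v + t13 * w + t123 * (v * w))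
      (t1 ^ 2 + (v - t2) ^ 2 + (w - t3) ^ 2 + t12 ^ 2 + t13 ^ 2 + (v * w - t23) ^ 2 + t123 ^ 2)
      u hu hu' (by
        intro s hs hs2
        have := hmin' s v w hs hv0 hw0 hs2 hv2 hw2
        unfold h at this
        linarith)
    linarith
  · have := quad_min (1 + u ^ 2 + w ^ 2 + u ^ 2 * w ^ 2) (t2 + t12 * u + t23 * w + t123 * (u * w))
      (t2 ^ 2 + (u - t1) ^ 2 + (w - t3) ^ 2 + t12 ^ 2 + t23 ^ 2 + (u * w - t13) ^ 2 + t123 ^ 2)
      v hv hv' (by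
        intro s hs hs2
        have := hmin' u s w hu0 hs hw0 hu2 hs2 hw2
        unfold h at this
        linarith)
    linarith
  · have := quad_min (1 + u ^ 2 + v ^ 2 + u ^ 2 * v ^ 2) (t3 + t13 * u + t23 * v + t123 * (u * v))
      (t3 ^ 2 + (u - t1) ^ 2 + (v - t2) ^ 2 + t13 ^ 2 + t23 ^ 2 + (u * v - t12) ^ 2 + t123 ^ 2)
      w hw hw' (by
        intro s hs hs2
        have := hmin' u v s hu0 hv0 hs hu2 hv2 hs2
        unfold h at this
        linarith)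
    linarith

end Pool.Agent.H9.RealCrit
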