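import Pool.Agent.H9.RealCrit.Proof

namespace Pool.Agent.H9.RealCrit

/-- The vector `((1 + u)/2, (1 - u)/2)`. -/
noncomputable def A (u : ℂ) : Fin 2 → ℂ := ![(1 + u) / 2, (1 - u) / 2]

/-- Real version. -/
noncomputable def Ar (u : ℝ) : Fin 2 → ℝ := ![(1 + u) / 2, (1 - u) / 2]

theorem toC_rk (u v w : ℝ) : toC (rk (Ar u) (Ar v) (Ar w)) = rk (A u) (A v) (A w) := by
  funext i j l
  fin_cases i <;> fin_cases j <;> fin_cases l <;> simp [toC, rk, Ar, A]

section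
variable {K : Type} [CommRing K] (T : Tensor K)

def f1 : K := (T 0 0 0 + T 0 0 1 + T 0 1 0 + T 0 1 1) - (T 1 0 0 + T 1 0 1 + T 1 1 0 + T 1 1 1)
def f2 : K := (T 0 0 0 + T 0 0 1 + T 1 0 0 + T 1 0 1) - (T 0 1 0 + T 0 1 1 + T 1 1 0 + T 1 1 1)
def f3 : K := (T 0 0 0 + T 0 1 0 + T 1 0 0 + T 1 1 0) - (T 0 0 1 + T 0 1 1 + T 1 0 1 + T 1 1 1)
def f12 : K := (T 0 0 0 + T 0 0 1 + T 1 1 0 + T 1 1 1) - (T 0 1 0 + T 0 1 1 + T 1 0 0 + T 1 0 1)
def f13 : K := (T 0 0 0 + T 0 1 0 + T 1 0 1 + T 1 1 1) - (T 0 0 1 + T 0 1 1 + T 1 0 0 + T 1 1 0)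
def f23 : K := (T 0 0 0 + T 1 0 0 + T 0 1 1 + T 1 1 1) - (T 0 0 1 + T 1 0 1 + T 0 1 0 + T 1 1 0)
def f123 : K := (T 0 0 0 + T 0 1 1 + T 1 0 1 + T 1 1 0) - (T 0 0 1 + T 0 1 0 + T 1 0 0 + T 1 1 1)
end

theorem crit_of_eqs (T : Tensor ℂ) (u v w : ℂ)
    (e1 : (u - f1 T) + (u * v - f12 T) * v + (u * w - f13 T) * w
      + (u * v * w - f123 T) * (v * w) = 0)
    (e2 : (v - f2 T) + (u * v - f12 T) * u + (v * w - f23 T) * w
      + (u * v * w - f123 T) * (u * w) = 0)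
    (e3 : (w - f3 T) + (u * w - f13 T) * u + (v * w - f23 T) * v
      + (u * v * w - f123 T) * (u * v) = 0) :
    IsCritical T (rk (A u) (A v) (A w)) := by
  refine ⟨A u, A v, A w, rfl, ?_, ?_⟩
  · simp only [tot, rk, A, Fin.sum_univ_two, Matrix.cons_val_zero, Matrix.cons_val_one]
    ring
  · intro a' b' c' h0
    simp only [tot, rk, A, Fin.sum_univ_two, Matrix.cons_val_zero, Matrix.cons_val_one,
      Pi.add_apply] at h0
    simp only [inn, rk, A, Fin.sum_univ_two, Matrix.cons_val_zero, Matrix.cons_val_one,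
      Pi.add_apply, Pi.sub_apply]
    simp only [f1, f2, f3, f12, f13, f23, f123] at e1 e2 e3
    have hs : a' 0 + a' 1 + (b' 0 + b' 1) + (c' 0 + c' 1) = 0 := by
      linear_combination h0
    obtain ⟨c0, hc0⟩ : ∃ c0, c0 = inn (rk (A u) (A v) (A w) - T) (rk (A u) (A v) (A w)) := ⟨_, rfl⟩
    simp only [inn, rk, A, Fin.sum_univ_two, Matrix.cons_val_zero, Matrix.cons_val_one,
      Pi.sub_apply] at hc0
    linear_combination (1 / 4) * (a' 0 - (a' 0 + a' 1) * (1 + u) / 2) * e1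
      + (1 / 4) * (b' 0 - (b' 0 + b' 1) * (1 + v) / 2) * e2
      + (1 / 4) * (c' 0 - (c' 0 + c' 1) * (1 + w) / 2) * e3
      + c0 * hs - (a' 0 + a' 1 + (b' 0 + b' 1) + (c' 0 + c' 1)) * hc0

/-- The central tensor: `37/80` at `(i, i, i)` and `1/80` elsewhere. -/
noncomputable def T1 : Tensor ℝ := fun i j l => if i = j ∧ j = l then 37 / 80 else 1 / 80

theorem near_of_close (T : Tensor ℝ) (h : ∀ i j l, |T i j l - T1 i j l| < 1 / 1000) :
    Near (f1 T) (f2 T) (f3 T) (f12 T) (f13 T) (f23 T) (f123 T) := by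
  have h000 := abs_lt.1 (h 0 0 0)
  have h001 := abs_lt.1 (h 0 0 1)
  have h010 := abs_lt.1 (h 0 1 0)
  have h011 := abs_lt.1 (h 0 1 1)
  have h100 := abs_lt.1 (h 1 0 0)
  have h101 := abs_lt.1 (h 1 0 1)
  have h110 := abs_lt.1 (h 1 1 0)
  have h111 := abs_lt.1 (h 1 1 1)
  simp only [T1, Fin.isValue, and_self, if_true, zero_ne_one, one_ne_zero, and_false, false_and,
    if_false] at h000 h001 h010 h011 h100 h101 h110 h111
  constructor <;> rw [abs_le] <;> simp only [f1, f2, f3, f12, f13, f23, f123] <;>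
    constructor <;> linarith

theorem twoReal_of_close (T : Tensor ℝ) (h : ∀ i j l, |T i j l - T1 i j l| < 1 / 1000) :
    TwoReal T := by
  have H := near_of_close T h
  obtain ⟨u, v, w, hu, hv, hw, e1, e2, e3⟩ := exists_crit H
  have H' : Near (-f1 T) (-f2 T) (-f3 T) (f12 T) (f13 T) (f23 T) (-f123 T) :=
    ⟨by rw [abs_neg]; exact H.h1, by rw [abs_neg]; exact H.h2, by rw [abs_neg]; exact H.h3,
      H.h12, H.h13, H.h23, by rw [abs_neg]; exact H.h123⟩
  obtain ⟨u', v', w', hu', hv', hw', e1', e2', e3'⟩ := exists_crit H'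
  have c1 : f1 (toC T) = ((f1 T : ℝ) : ℂ) := by simp [f1, toC]
  have c2 : f2 (toC T) = ((f2 T : ℝ) : ℂ) := by simp [f2, toC]
  have c3 : f3 (toC T) = ((f3 T : ℝ) : ℂ) := by simp [f3, toC]
  have c12 : f12 (toC T) = ((f12 T : ℝ) : ℂ) := by simp [f12, toC]
  have c13 : f13 (toC T) = ((f13 T : ℝ) : ℂ) := by simp [f13, toC]
  have c23 : f23 (toC T) = ((f23 T : ℝ) : ℂ) := by simp [f23, toC]
  have c123 : f123 (toC T) = ((f123 T : ℝ) : ℂ) := by simp [f123, toC]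
  refine ⟨rk (Ar u) (Ar v) (Ar w), rk (Ar (-u')) (Ar (-v')) (Ar (-w')), ?_, ?_, ?_⟩
  · intro heq
    have k := congrArg (fun x : Tensor ℝ => x 0 0 0 + x 0 0 1 + x 0 1 0 + x 0 1 1) heq
    simp only [rk, Ar, Matrix.cons_val_zero, Matrix.cons_val_one] at k
    have k1 : (1 + u) / 2 * ((1 + v) / 2) * ((1 + w) / 2) + (1 + u) / 2 * ((1 + v) / 2) * ((1 - w) / 2)
        + (1 + u) / 2 * ((1 - v) / 2) * ((1 + w) / 2)
        + (1 + u) / 2 * ((1 - v) / 2) * ((1 - w) / 2) = (1 + u) / 2 := by ring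
    have k2 : (1 + -u') / 2 * ((1 + -v') / 2) * ((1 + -w') / 2)
        + (1 + -u') / 2 * ((1 + -v') / 2) * ((1 - -w') / 2)
        + (1 + -u') / 2 * ((1 - -v') / 2) * ((1 + -w') / 2)
        + (1 + -u') / 2 * ((1 - -v') / 2) * ((1 - -w') / 2) = (1 + -u') / 2 := by ring
    rw [k1, k2] at k
    linarith
  · rw [toC_rk]
    apply crit_of_eqs
    · rw [c1, c12, c13, c123]
      exact_mod_cast e1
    · rw [c2, c12, c23, c123]
      exact_mod_cast e2
    · rw [c3, c13, c23, c123]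
      exact_mod_cast e3
  · rw [toC_rk]
    apply crit_of_eqs
    · rw [c1, c12, c13, c123]
      norm_cast
      linear_combination (-1 : ℝ) * e1'
    · rw [c2, c12, c23, c123]
      norm_cast
      linear_combination (-1 : ℝ) * e2'
    · rw [c3, c13, c23, c123]
      norm_cast
      linear_combination (-1 : ℝ) * e3'

theorem pos_of_close (T : Tensor ℝ) (h : ∀ i j l, |T i j l - T1 i j l| < 1 / 1000) (i j l : Fin 2) :
    0 < T i j l := by
  have h1 := (abs_lt.1 (h i j l)).1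
  have h2 : (1 : ℝ) / 80 ≤ T1 i j l := by
    unfold T1
    split_ifs
    · norm_num
    · exact le_refl _
  linarith

theorem T1_prob : IsPosProb T1 := by
  refine ⟨?_, ?_⟩
  · simp only [tot, T1, Fin.sum_univ_two, Fin.isValue, and_self, if_true, zero_ne_one, one_ne_zero,
      and_false, false_and, if_false]
    norm_num
  · intro i j l
    exact pos_of_close T1 (fun i j l => by rw [sub_self, abs_zero]; norm_num) i j l

end Pool.Agent.H9.RealCrit
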